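import Pool.Agent.H927.MG.SGoals

/-!
# GO: the charts of the general members of the family are smooth (MP_2eb777_ag)
-/

set_option autoImplicit false

open Polynomial

namespace Pool.Agent.H658.MG927

open Pool.Agent.H927.MG

/-- two elements are coprime if they have no common zero in a field -/
lemma isCoprime_of_field {R : Type} [CommRing R] (a b : R)
    (h : ∀ (K : Type) [Field K] (φ : R →+* K), φ a = 0 → φ b = 0 → False) : IsCoprime a b := by
  by_contra hc
  have hI : Ideal.span {a, b} ≠ ⊤ := by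
    intro ht
    apply hc
    have h1 : (1 : R) ∈ Ideal.span {a, b} := by rw [ht]; trivial
    obtain ⟨x, y, hxy⟩ := Ideal.mem_span_pair.1 h1
    exact ⟨x, y, hxy⟩
  obtain ⟨M, hM, hle⟩ := Ideal.exists_le_maximal _ hI
  let _ : Field (R ⧸ M) := Ideal.Quotient.field M
  refine h (R ⧸ M) (Ideal.Quotient.mk M) ?_ ?_
  · exact Ideal.Quotient.eq_zero_iff_mem.2 (hle (Ideal.subset_span (by simp)))
  · exact Ideal.Quotient.eq_zero_iff_mem.2 (hle (Ideal.subset_span (by simp)))

lemma par_field {K : Type} [Field K] (P : Par K) (h6 : IsUnit (6 : K))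
    (h0 : -2 * P.σ * P.z * hn P.σ P.z P.k * P.w ^ 2 = 0)
    (h1 : P.lam ^ 2 * (hU P.σ P.z + 8 * P.z ^ 6) ^ 2 * P.w ^ 2 = 0) : False := by
  have h6' : (6 : K) ≠ 0 := h6.ne_zero
  have h2 : (2 : K) ≠ 0 := by
    intro h; apply h6'; linear_combination (3 : K) * h
  have h3 : (3 : K) ≠ 0 := by
    intro h; apply h6'; linear_combination (2 : K) * h
  have hw0 : P.w ≠ 0 := by
    intro h
    have := P.hw
    rw [h, mul_zero] at this
    exact zero_ne_one this
  have hn0 : hn P.σ P.z P.k ≠ 0 := by
    intro h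
    have := P.he
    rw [h, zero_mul] at this
    exact zero_ne_one this
  have hsz : ¬ (P.σ = 0 ∧ P.z = 0) := by
    rintro ⟨hs, hz⟩
    have := P.hw
    simp only [hU, hs, hz] at this
    norm_num at this
  have hw1 := P.hw
  have hlam := P.hlam
  have ha : P.σ = 0 ∨ P.z = 0 := by
    simpa [hn0, hw0, h2] using h0
  have hb : P.lam = 0 ∨ hU P.σ P.z + 8 * P.z ^ 6 = 0 := by
    simpa [hw0] using h1
  apply hsz
  rcases ha with hs | hz
  · refine ⟨hs, ?_⟩
    rcases hb with hl | hu
    · rw [hl] at hlam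
      simp only [hU, hs] at hlam
      have : P.z ^ 6 = 0 := by linear_combination -hlam
      exact pow_eq_zero_iff (by norm_num) |>.1 this
    · simp only [hU, hs] at hu
      have h9 : (9 : K) ≠ 0 := by
        have : (9 : K) = 3 * 3 := by norm_num
        rw [this]; exact mul_ne_zero h3 h3
      have : (9 : K) * P.z ^ 6 = 0 := by linear_combination hu
      have := (mul_eq_zero.1 this).resolve_left h9
      exact pow_eq_zero_iff (by norm_num) |>.1 this
  · refine ⟨?_, hz⟩
    rcases hb with hl | hu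
    · rw [hl] at hlam
      simp only [hU, hz] at hlam
      have : P.σ ^ 2 = 0 := by linear_combination -hlam
      exact pow_eq_zero_iff (by norm_num) |>.1 this
    · simp only [hU, hz] at hu
      have : P.σ ^ 2 = 0 := by linear_combination hu
      exact pow_eq_zero_iff (by norm_num) |>.1 this

lemma par_coprime {R : Type} [CommRing R] (P : Par R) (h6 : IsUnit (6 : R)) :
    IsCoprime (-2 * P.σ * P.z * hn P.σ P.z P.k * P.w ^ 2)
      (P.lam ^ 2 * (hU P.σ P.z + 8 * P.z ^ 6) ^ 2 * P.w ^ 2) := by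
  apply isCoprime_of_field
  intro K _ φ h0 h1
  have h8 : φ 8 = 8 := map_ofNat φ 8
  have h20 : φ 20 = 20 := map_ofNat φ 20
  have h2 : φ 2 = 2 := map_ofNat φ 2
  have h6' : φ 6 = 6 := map_ofNat φ 6
  have e1 : φ (hU P.σ P.z) = hU (φ P.σ) (φ P.z) := by simp [hU]
  have e2 : φ (hn P.σ P.z P.k) = hn (φ P.σ) (φ P.z) (φ P.k) := by
    simp [hn, e1, h8, h20]
  refine par_field (P.map φ) (h6' ▸ h6.map φ) ?_ ?_
  · rw [← h0]
    simp only [map_mul, map_neg, map_pow, e2, h2, Par.map]
  · rw [← h1]
    simp only [map_mul, map_add, map_pow, e1, h8, Par.map]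

lemma lin_coprime {R : Type} [CommRing R] {a b : R} (h : IsCoprime a b) :
    IsCoprime (C a + C b * X : R[X]) (derivative (C a + C b * X)) := by
  have hd : derivative (C a + C b * X : R[X]) = C b := by simp
  rw [hd]
  have h1 : IsCoprime (C a : R[X]) (C b) := h.map (C : R →+* R[X])
  obtain ⟨x, y, hxy⟩ := h1
  exact ⟨x, y - x * X, by linear_combination hxy⟩

lemma sextic_coprime {R : Type} [CommRing R] (h6 : IsUnit (6 : R)) :
    IsCoprime (1 - X ^ 6 : R[X]) (derivative (1 - X ^ 6)) := by
  obtain ⟨v, hv⟩ := h6.exists_right_inv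
  have c5 : (C 5 : R[X]) = 5 := map_ofNat C 5
  have c6 : (C 6 : R[X]) = 6 := map_ofNat C 6
  have hd : derivative (1 - X ^ 6 : R[X]) = -(C 6 * X ^ 5) := by
    simp only [derivative_sub, derivative_one, derivative_X_pow_succ]
    simp [c5, c6]
    norm_num
  rw [hd]
  have hv' : (C 6 : R[X]) * C v = 1 := by rw [← C_mul, hv, C_1]
  exact ⟨1, -(C v * X), by linear_combination X ^ 6 * hv'⟩

theorem good : S_good := by
  intro R _ _ P h6
  have hc := par_coprime P h6
  refine ⟨⟨?_, ?_, ?_⟩, ?_, ?_, ?_⟩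
  · rw [P.f1]; exact sextic_coprime h6
  · exact lin_coprime isCoprime_one_right
  · exact lin_coprime hc
  · rw [P.f2]
    have h := sextic_coprime h6
    have e : (X ^ 6 - 1 : R[X]) = -(1 - X ^ 6) := by ring
    rw [e, derivative_neg]
    exact h.neg_neg
  · exact lin_coprime isCoprime_one_left
  · exact lin_coprime hc.symm

end Pool.Agent.H658.MG927
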